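import Pool.Agent.H91.Shear

set_option autoImplicit false

open Metric H91.Shear in
theorem Pool.Agent.Results.MP_d9fe16_an.NotExtreme.result :
    ∃ (M l : ℝ) (g h : ℂ × ℂ → ℂ × ℂ), 1 < M ∧ 0 < l ∧ l < 1 ∧ S0 M g ∧ S0 M h ∧
    (∃ z ∈ ball (0 : ℂ × ℂ) 1, g z ≠ h z) ∧
    ∀ z : ℂ × ℂ, (z.1 + (1 - 1 / (M : ℂ)) * z.2 ^ 2, z.2) = l • g z + (1 - l) • h z :=
  main
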